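import Mathlib
import Pool.Agent.Helper38.PC.AP

/-!
# Surfaces: if all return sets for curves are finite unions of progressions, then the return sets
for surfaces are finite unions of progressions and of sets whose gaps tend to infinity
-/

set_option autoImplicit false

namespace Pool.Agent.Helper89.TNG

open MvPolynomial
open Pool.Agent.Helper38.PC (FU EP ep_mul)

/-- The gaps of the set tend to infinity. -/
def Gaps (E : Set ℕ) : Prop := ∀ l, 0 < l → {n | n ∈ E ∧ n + l ∈ E}.Finite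

theorem ep_of_add {S : Set ℕ} {l : ℕ} (hl : 0 < l) (h : ∀ n ∈ S, n + l ∈ S) : EP S := by
  classical
  have hc : ∀ n ∈ S, ∀ c, n + l * c ∈ S := by
    intro n hn c
    induction c with
    | zero => simpa using hn
    | succ c ih =>
      have h1 := h _ ih
      rw [show n + l * (c + 1) = n + l * c + l by ring]
      exact h1
  -- an element of `S` in every class which meets `S`
  have h1 : ∀ r : ℕ, ∃ m : ℕ, ∀ n ∈ S, n % l = r → m % l = r ∧ m ∈ S := by
    intro r
    by_cases hr : ∃ n ∈ S, n % l = r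
    · obtain ⟨m, hm, hm'⟩ := hr
      exact ⟨m, fun _ _ _ => ⟨hm', hm⟩⟩
    · push Not at hr
      exact ⟨0, fun n hn hn' => absurd hn' (hr n hn)⟩
  choose m hm using h1
  refine ⟨(Finset.range l).sup m, l, hl, fun n hn => ⟨h n, fun hn' => ?_⟩⟩
  have h2 : (n + l) % l = n % l := Nat.add_mod_right n l
  obtain ⟨h3, h4⟩ := hm (n % l) (n + l) hn' h2
  have h5 : m (n % l) ≤ n := by
    refine le_trans ?_ hn
    exact Finset.le_sup (f := m) (Finset.mem_range.2 (Nat.mod_lt _ hl))
  have h6 : n = m (n % l) + l * (n / l - m (n % l) / l) := by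
    have h7 := Nat.mod_add_div n l
    have h8 := Nat.mod_add_div (m (n % l)) l
    rw [h3] at h8
    have h9 : m (n % l) / l ≤ n / l := Nat.div_le_div_right h5
    rw [Nat.mul_sub]
    have h10 : l * (m (n % l) / l) ≤ l * (n / l) := Nat.mul_le_mul_left _ h9
    omega
  rw [h6]
  exact hc _ h4 _

theorem ep_biUnion {ι : Type} (s : Finset ι) {R : ι → Set ℕ} (h : ∀ i ∈ s, EP (R i)) :
    EP (⋃ i ∈ s, R i) := by
  classical
  induction s using Finset.induction_on with
  | empty => exact ⟨0, 1, one_pos, fun n _ => by simp⟩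
  | insert a s ha ih =>
    rw [Finset.set_biUnion_insert]
    exact (h a (Finset.mem_insert_self _ _)).union
      (ih fun i hi => h i (Finset.mem_insert_of_mem hi))

section

variable {N : ℕ} {K : Type} [Field K]

/-- The times at which the point `y n` is a zero of all the elements of `S`. -/
def ret (y : ℕ → Fin (N + 1) → K) (S : Set (MvPolynomial (Fin (N + 1)) K)) : Set ℕ :=
  {n | ∀ g ∈ S, eval (y n) g = 0}

/-- All the elements are forms. -/
def Forms (S : Set (MvPolynomial (Fin (N + 1)) K)) : Prop := ∀ g ∈ S, ∃ e, g.IsHomogeneous e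

/-- Composition with the `l`-th iterate. -/
noncomputable def cmpN (F : Fin (N + 1) → MvPolynomial (Fin (N + 1)) K) (l : ℕ)
    (g : MvPolynomial (Fin (N + 1)) K) : MvPolynomial (Fin (N + 1)) K :=
  (fun P => aeval F P)^[l] g

theorem cmpN_hom {F : Fin (N + 1) → MvPolynomial (Fin (N + 1)) K} {d : ℕ}
    (hF : ∀ i, (F i).IsHomogeneous d) (l : ℕ) {g : MvPolynomial (Fin (N + 1)) K} {e : ℕ}
    (hg : g.IsHomogeneous e) : (cmpN F l g).IsHomogeneous (d ^ l * e) := by
  unfold cmpN
  induction l with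
  | zero => simpa using hg
  | succ l ih =>
    rw [Function.iterate_succ_apply']
    have h1 := ih.aeval F hF
    rw [show d ^ (l + 1) * e = d * (d ^ l * e) by ring]
    exact h1

theorem cmpN_add (F : Fin (N + 1) → MvPolynomial (Fin (N + 1)) K) (l : ℕ)
    (g g' : MvPolynomial (Fin (N + 1)) K) : cmpN F l (g + g') = cmpN F l g + cmpN F l g' := by
  unfold cmpN
  induction l with
  | zero => rfl
  | succ l ih =>
    rw [Function.iterate_succ_apply', ih, Function.iterate_succ_apply',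
      Function.iterate_succ_apply']
    exact map_add _ _ _

theorem cmpN_sum (F : Fin (N + 1) → MvPolynomial (Fin (N + 1)) K) (l : ℕ) {ι : Type}
    (s : Finset ι) (g : ι → MvPolynomial (Fin (N + 1)) K) :
    cmpN F l (∑ i ∈ s, g i) = ∑ i ∈ s, cmpN F l (g i) := by
  classical
  induction s using Finset.induction_on with
  | empty =>
    rw [Finset.sum_empty, Finset.sum_empty]
    have h := cmpN_add F l 0 0
    rw [add_zero] at h
    simpa using h
  | insert a s ha ih => rw [Finset.sum_insert ha, Finset.sum_insert ha, cmpN_add, ih]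

variable {F : Fin (N + 1) → MvPolynomial (Fin (N + 1)) K} {y : ℕ → Fin (N + 1) → K}

theorem eval_cmpN (hy : ∀ n, y (n + 1) = fun i => eval (y n) (F i)) (l n : ℕ)
    (g : MvPolynomial (Fin (N + 1)) K) : eval (y n) (cmpN F l g) = eval (y (n + l)) g := by
  have h1 : ∀ (n : ℕ) (P : MvPolynomial (Fin (N + 1)) K),
      eval (y n) (aeval F P) = eval (y (n + 1)) P := by
    intro n P
    rw [hy]
    induction P using MvPolynomial.induction_on with
    | C a => simp
    | add p q hp hq => rw [map_add, map_add, hp, hq, map_add]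
    | mul_X p i hp => rw [map_mul, map_mul, hp, aeval_X, map_mul, eval_X]
  unfold cmpN
  induction l generalizing g with
  | zero => rfl
  | succ l ih =>
    rw [Function.iterate_succ_apply, ih, h1]
    rfl

/-- The homogeneous elements of a homogeneous ideal. -/
theorem ret_forms {P : Ideal (MvPolynomial (Fin (N + 1)) K)}
    (hP : ∀ g ∈ P, ∀ m, homogeneousComponent m g ∈ P) (n : ℕ) :
    n ∈ ret y {g | g ∈ P ∧ ∃ e, g.IsHomogeneous e} ↔ n ∈ ret y (P : Set _) := by
  constructor
  · intro h g hg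
    rw [← sum_homogeneousComponent g, map_sum]
    exact Finset.sum_eq_zero fun i _ =>
      h _ ⟨hP g hg i, i, homogeneousComponent_isHomogeneous i g⟩
  · intro h g hg
    exact h g hg.1

theorem krull_quot {A : Type} [CommRing A] {P J : Ideal A} [P.IsPrime] (hPJ : P ≤ J)
    (hJP : ¬ J ≤ P) {m : ℕ} (h : ringKrullDim (A ⧸ P) ≤ (m + 1 : ℕ)) :
    ringKrullDim (A ⧸ J) ≤ m := by
  obtain ⟨g, hgJ, hgP⟩ := Set.not_subset.1 hJP
  have h1 : Ideal.Quotient.mk P g ∈ nonZeroDivisors (A ⧸ P) := by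
    rw [mem_nonZeroDivisors_iff_ne_zero]
    intro h0
    exact hgP (Ideal.Quotient.eq_zero_iff_mem.1 h0)
  have h2 := ringKrullDim_quotient_succ_le_of_nonZeroDivisor h1
  have h3 : ringKrullDim (A ⧸ J) ≤
      ringKrullDim ((A ⧸ P) ⧸ Ideal.span {Ideal.Quotient.mk P g}) := by
    have h4 : ∀ a ∈ Ideal.span {Ideal.Quotient.mk P g}, Ideal.Quotient.factor hPJ a = 0 := by
      intro a ha
      rw [Ideal.mem_span_singleton] at ha
      obtain ⟨c, rfl⟩ := ha
      rw [map_mul, Ideal.Quotient.factor_mk, Ideal.Quotient.eq_zero_iff_mem.2 hgJ, zero_mul]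
    refine ringKrullDim_le_of_surjective (Ideal.Quotient.lift _ (Ideal.Quotient.factor hPJ) h4) ?_
    exact Ideal.Quotient.lift_surjective_of_surjective _ h4 (Ideal.Quotient.factor_surjective hPJ)
  have h5 := (add_le_add_left h3 1).trans (h2.trans h)
  have h6 : ringKrullDim (A ⧸ J) + 1 ≤ (m : WithBot ℕ∞) + 1 := by
    push_cast at h5
    exact h5
  exact ENat.WithBot.add_le_add_one_right_iff.1 h6

/-- The prime case. -/
theorem prime_case {d : ℕ} (hF : ∀ i, (F i).IsHomogeneous d)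
    (hy : ∀ n, y (n + 1) = fun i => eval (y n) (F i)) {m : ℕ}
    (hdml : ∀ S : Set (MvPolynomial (Fin (N + 1)) K), Forms S →
      ringKrullDim (MvPolynomial (Fin (N + 1)) K ⧸ Ideal.span S) ≤ m → EP (ret y S))
    {P : Ideal (MvPolynomial (Fin (N + 1)) K)} (hPp : P.IsPrime)
    (hP : ∀ g ∈ P, ∀ m, homogeneousComponent m g ∈ P)
    (hdim : ringKrullDim (MvPolynomial (Fin (N + 1)) K ⧸ P) ≤ (m + 1 : ℕ)) :
    EP (ret y (P : Set _)) ∨ Gaps (ret y (P : Set _)) := by
  classical
  by_cases h1 : ∃ l, 0 < l ∧ ∀ g ∈ P, cmpN F l g ∈ P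
  · obtain ⟨l, hl, h⟩ := h1
    left
    refine ep_of_add hl fun n hn g hg => ?_
    rw [← eval_cmpN hy]
    exact hn _ (h g hg)
  push Not at h1
  by_cases h2 : Gaps (ret y (P : Set _))
  · exact Or.inr h2
  left
  unfold Gaps at h2
  push Not at h2
  obtain ⟨l, hl, hinf⟩ := h2
  -- the forms in `P`
  set PF : Set (MvPolynomial (Fin (N + 1)) K) := {g | g ∈ P ∧ ∃ e, g.IsHomogeneous e} with hPF
  set S₀ : Set (MvPolynomial (Fin (N + 1)) K) := PF ∪ cmpN F l '' PF with hS₀
  have hPFforms : Forms PF := fun g hg => hg.2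
  have himg : ∀ l, Forms (cmpN F l '' PF) := by
    rintro l _ ⟨g, hg, rfl⟩
    obtain ⟨e, he⟩ := hg.2
    exact ⟨_, cmpN_hom hF l he⟩
  have hS₀forms : Forms S₀ := by
    rintro g (hg | hg)
    · exact hPFforms g hg
    · exact himg l g hg
  have hretc : ∀ l n, n ∈ ret y (cmpN F l '' PF) ↔ n + l ∈ ret y (P : Set _) := by
    intro l n
    rw [← ret_forms hP]
    constructor
    · intro h g hg
      rw [← eval_cmpN hy]
      exact h _ ⟨g, hg, rfl⟩
    · rintro h _ ⟨g, hg, rfl⟩
      rw [eval_cmpN hy]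
      exact h g hg
  have hret₀ : ∀ n, n ∈ ret y S₀ ↔ n ∈ ret y (P : Set _) ∧ n + l ∈ ret y (P : Set _) := by
    intro n
    rw [← hretc l, ← ret_forms hP]
    constructor
    · exact fun h => ⟨fun g hg => h g (Or.inl hg), fun g hg => h g (Or.inr hg)⟩
    · rintro ⟨h, h'⟩ g (hg | hg)
      · exact h g hg
      · exact h' g hg
  -- the span
  have hPspan : P ≤ Ideal.span PF := by
    intro g hg
    rw [← sum_homogeneousComponent g]
    exact Ideal.sum_mem _ fun i _ => Ideal.subset_span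
      ⟨hP g hg i, i, homogeneousComponent_isHomogeneous i g⟩
  have hPle : P ≤ Ideal.span S₀ := hPspan.trans (Ideal.span_mono Set.subset_union_left)
  have hnle : ¬ Ideal.span S₀ ≤ P := by
    intro hle
    obtain ⟨g, hg, hg'⟩ := h1 l hl
    apply hg'
    rw [← sum_homogeneousComponent g, cmpN_sum]
    exact Ideal.sum_mem _ fun i _ => hle (Ideal.subset_span (Or.inr ⟨_, ⟨hP g hg i, i,
      homogeneousComponent_isHomogeneous i g⟩, rfl⟩))
  have hdim₀ : ringKrullDim (MvPolynomial (Fin (N + 1)) K ⧸ Ideal.span S₀) ≤ m :=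
    krull_quot hPle hnle hdim
  have hEP₀ := hdml S₀ hS₀forms hdim₀
  obtain ⟨n₁, M, hM, h⟩ := hEP₀
  have hinf₀ : (ret y S₀).Infinite := by
    have h3 : ret y S₀ = {n | n ∈ ret y (P : Set _) ∧ n + l ∈ ret y (P : Set _)} :=
      Set.ext fun n => hret₀ n
    rw [h3]
    exact hinf
  obtain ⟨a, ha, ha'⟩ := hinf₀.exists_gt n₁
  have haM : ∀ s, a + M * s ∈ ret y S₀ := fun s => (ep_mul h s a ha'.le).1 ha
  -- the classes
  have hEPr : ∀ r, EP (ret y (S₀ ∪ cmpN F r '' PF)) := by
    intro r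
    refine hdml _ ?_ (le_trans ?_ hdim₀)
    · rintro g (hg | hg)
      · exact hS₀forms g hg
      · exact himg r g hg
    · exact ringKrullDim_le_of_surjective
        (Ideal.Quotient.factor (Ideal.span_mono Set.subset_union_left))
        (Ideal.Quotient.factor_surjective _)
  have hretr : ∀ r s, a + M * s ∈ ret y (S₀ ∪ cmpN F r '' PF) ↔
      a + r + M * s ∈ ret y (P : Set _) := by
    intro r s
    rw [show a + r + M * s = a + M * s + r by ring, ← hretc r]
    constructor
    · exact fun h g hg => h g (Or.inr hg)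
    · rintro h g (hg | hg)
      · exact haM s g hg
      · exact h g hg
  choose nr Mr hMr hr using hEPr
  set Mst := ∏ r ∈ Finset.range M, Mr r with hMst
  have hMst0 : 0 < Mst := Finset.prod_pos fun r _ => hMr r
  refine ⟨a + M + (Finset.range M).sup nr, M * Mst, Nat.mul_pos hM hMst0, fun n hn => ?_⟩
  obtain ⟨r, s, hrM, hn'⟩ : ∃ r s, r < M ∧ n = a + r + M * s := by
    refine ⟨(n - a) % M, (n - a) / M, Nat.mod_lt _ hM, ?_⟩
    have h3 := Nat.mod_add_div (n - a) M
    have h4 : a ≤ n := by omega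
    rw [add_assoc, h3, Nat.add_sub_cancel' h4]
  obtain ⟨q, hq⟩ : Mr r ∣ Mst := Finset.dvd_prod_of_mem Mr (Finset.mem_range.2 hrM)
  have h4 : nr r ≤ a + M * s := by
    have h5 : nr r ≤ (Finset.range M).sup nr :=
      Finset.le_sup (f := nr) (Finset.mem_range.2 hrM)
    omega
  have h5 := ep_mul (hr r) (M * q) (a + M * s) h4
  have h6 : a + M * s + Mr r * (M * q) = a + M * (s + Mst) := by
    rw [hq]
    ring
  rw [h6, hretr, hretr] at h5
  rw [hn']
  have h7 : a + r + M * s + M * Mst = a + r + M * (s + Mst) := by ring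
  rw [h7]
  exact h5

theorem minimal_hom {I P : Ideal (MvPolynomial (Fin (N + 1)) K)}
    (hI : ∃ S, Forms S ∧ I = Ideal.span S) (hP : P ∈ I.minimalPrimes) :
    ∀ g ∈ P, ∀ m, homogeneousComponent m g ∈ P := by
  classical
  letI := MvPolynomial.gradedAlgebra (σ := Fin (N + 1)) (R := K)
  obtain ⟨S, hS, rfl⟩ := hI
  have hPp : P.IsPrime := hP.1.1
  set Q := (P.homogeneousCore (homogeneousSubmodule (Fin (N + 1)) K)) with hQ
  have hQp : Q.toIdeal.IsPrime := Ideal.IsPrime.homogeneousCore hPp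
  have hQle : Q.toIdeal ≤ P := Ideal.toIdeal_homogeneousCore_le _ P
  have hSQ : Ideal.span S ≤ Q.toIdeal := by
    rw [Ideal.span_le]
    intro g hg
    obtain ⟨e, he⟩ := hS g hg
    exact Ideal.mem_homogeneousCore_of_homogeneous_of_mem ⟨e, he⟩
      (hP.1.2 (Ideal.subset_span hg))
  have hPQ : P ≤ Q.toIdeal := hP.2 ⟨hQp, hSQ⟩ hQle
  intro g hg m
  have h1 := Q.isHomogeneous m (hPQ hg)
  have h2 : ((DirectSum.decompose (homogeneousSubmodule (Fin (N + 1)) K) g m :
      homogeneousSubmodule (Fin (N + 1)) K m) : MvPolynomial (Fin (N + 1)) K) =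
      homogeneousComponent m g := decomposition.decompose'_apply g m
  rw [h2] at h1
  exact hQle h1

/-- Return sets for closed sets of dimension one more. -/
theorem gaps {d : ℕ} (hF : ∀ i, (F i).IsHomogeneous d)
    (hy : ∀ n, y (n + 1) = fun i => eval (y n) (F i)) {m : ℕ}
    (hdml : ∀ S : Set (MvPolynomial (Fin (N + 1)) K), Forms S →
      ringKrullDim (MvPolynomial (Fin (N + 1)) K ⧸ Ideal.span S) ≤ m → FU (ret y S))
    {S : Set (MvPolynomial (Fin (N + 1)) K)} (hS : Forms S)
    (hdim : ringKrullDim (MvPolynomial (Fin (N + 1)) K ⧸ Ideal.span S) ≤ (m + 1 : ℕ)) :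
    ∃ (P : Set ℕ) (t : ℕ) (E : Fin t → Set ℕ), FU P ∧ (∀ i, Gaps (E i)) ∧
      ret y S = P ∪ ⋃ i, E i := by
  classical
  set I := Ideal.span S with hI
  have hfin : I.minimalPrimes.Finite := Ideal.finite_minimalPrimes_of_isNoetherianRing _ I
  have hcase : ∀ P ∈ I.minimalPrimes, EP (ret y (P : Set _)) ∨ Gaps (ret y (P : Set _)) := by
    intro P hP
    refine prime_case hF hy (m := m) (fun S' hS' hd => (hdml S' hS' hd).ep) hP.1.1
      (minimal_hom ⟨S, hS, hI⟩ hP) (le_trans ?_ hdim)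
    exact ringKrullDim_le_of_surjective (Ideal.Quotient.factor hP.1.2)
      (Ideal.Quotient.factor_surjective _)
  have hret : ∀ n, n ∈ ret y S ↔ ∃ P ∈ I.minimalPrimes, n ∈ ret y (P : Set _) := by
    intro n
    constructor
    · intro h
      have h1 : I ≤ RingHom.ker (eval (y n)) := by
        rw [hI, Ideal.span_le]
        exact fun g hg => h g hg
      have h2 : (RingHom.ker (eval (y n))).IsPrime := RingHom.ker_isPrime _
      obtain ⟨P, hP, hle⟩ := Ideal.exists_minimalPrimes_le h1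
      exact ⟨P, hP, fun g hg => hle hg⟩
    · rintro ⟨P, hP, h⟩ g hg
      exact h g (hP.1.2 (Ideal.subset_span hg))
  obtain ⟨A, hA⟩ : ∃ A : Finset (Ideal (MvPolynomial (Fin (N + 1)) K)),
      ∀ P, P ∈ A ↔ P ∈ I.minimalPrimes ∧ EP (ret y (P : Set _)) :=
    ⟨hfin.toFinset.filter (fun P : Ideal (MvPolynomial (Fin (N + 1)) K) =>
      EP (ret y (P : Set _))), fun P => by rw [Finset.mem_filter, Set.Finite.mem_toFinset]⟩
  obtain ⟨B, hB⟩ : ∃ B : Finset (Ideal (MvPolynomial (Fin (N + 1)) K)),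
      ∀ P, P ∈ B ↔ P ∈ I.minimalPrimes ∧ ¬ EP (ret y (P : Set _)) :=
    ⟨hfin.toFinset.filter (fun P : Ideal (MvPolynomial (Fin (N + 1)) K) =>
      ¬ EP (ret y (P : Set _))), fun P => by rw [Finset.mem_filter, Set.Finite.mem_toFinset]⟩
  refine ⟨⋃ P ∈ A, ret y (P : Set _), B.card, fun i => ret y ((B.equivFin.symm i).1 : Set _),
    (ep_biUnion A fun P hP => ((hA P).1 hP).2).fu, fun i => ?_, ?_⟩
  · have h1 := (hB _).1 (B.equivFin.symm i).2
    exact (hcase _ h1.1).resolve_left h1.2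
  · ext n
    rw [hret, Set.mem_union, Set.mem_iUnion₂, Set.mem_iUnion]
    constructor
    · rintro ⟨P, hP, hn⟩
      by_cases h1 : EP (ret y (P : Set _))
      · exact Or.inl ⟨P, (hA P).2 ⟨hP, h1⟩, hn⟩
      · have h2 : P ∈ B := (hB P).2 ⟨hP, h1⟩
        refine Or.inr ⟨B.equivFin ⟨P, h2⟩, ?_⟩
        rw [Equiv.symm_apply_apply]
        exact hn
    · rintro (⟨P, hP, hn⟩ | ⟨i, hn⟩)
      · exact ⟨P, ((hA P).1 hP).1, hn⟩
      · exact ⟨_, ((hB _).1 (B.equivFin.symm i).2).1, hn⟩

end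

end Pool.Agent.Helper89.TNG
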