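import Pool.Agent.Helper89.TNG.Gaps

/-!
# The same as in `Gaps`, up to a class of small sets
-/

set_option autoImplicit false

namespace Pool.Agent.Helper89.TNG

open MvPolynomial
open Pool.Agent.Helper38.PC (FU EP ep_mul)

/-- A class of small sets of natural numbers. -/
structure SmallClass (Sm : Set ℕ → Prop) : Prop where
  mono : ∀ {A B : Set ℕ}, A ⊆ B → Sm B → Sm A
  union : ∀ {A B : Set ℕ}, Sm A → Sm B → Sm (A ∪ B)
  shift : ∀ {A : Set ℕ} (r : ℕ), Sm A → Sm {n | ∃ a ∈ A, n = a + r}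
  fin : ∀ {A : Set ℕ}, A.Finite → Sm A

theorem smallClass_finite : SmallClass Set.Finite where
  mono h hB := hB.subset h
  union := Set.Finite.union
  shift r hA := (hA.image fun a => a + r).subset (by
    rintro n ⟨a, ha, rfl⟩
    exact ⟨a, ha, rfl⟩)
  fin := id

theorem SmallClass.biUnion {Sm : Set ℕ → Prop} (hS : SmallClass Sm) {ι : Type} (s : Finset ι)
    {R : ι → Set ℕ} (h : ∀ i ∈ s, Sm (R i)) : Sm (⋃ i ∈ s, R i) := by
  classical
  induction s using Finset.induction_on with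
  | empty => exact hS.fin (by simp)
  | insert a s ha ih =>
    rw [Finset.set_biUnion_insert]
    exact hS.union (h a (Finset.mem_insert_self _ _))
      (ih fun i hi => h i (Finset.mem_insert_of_mem hi))

/-- Eventually periodic up to a small set. -/
def QP (Sm : Set ℕ → Prop) (R : Set ℕ) : Prop := ∃ P G : Set ℕ, EP P ∧ Sm G ∧ R = P ∪ G

/-- The class of the sets all of whose differences are small. -/
def Diff (Sm : Set ℕ → Prop) (E : Set ℕ) : Prop :=
  ∀ l, 0 < l → Sm {n | n ∈ E ∧ n + l ∈ E}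

theorem qp_biUnion {Sm : Set ℕ → Prop} (hS : SmallClass Sm) {ι : Type} (s : Finset ι)
    {R : ι → Set ℕ} (h : ∀ i ∈ s, QP Sm (R i)) : QP Sm (⋃ i ∈ s, R i) := by
  classical
  choose! P G hP hG hR using h
  refine ⟨⋃ i ∈ s, P i, ⋃ i ∈ s, G i, ep_biUnion s hP, hS.biUnion s hG, ?_⟩
  ext n
  simp only [Set.mem_iUnion, Set.mem_union]
  constructor
  · rintro ⟨i, hi, hn⟩
    rw [hR i hi] at hn
    rcases hn with hn | hn
    · exact Or.inl ⟨i, hi, hn⟩
    · exact Or.inr ⟨i, hi, hn⟩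
  · rintro (⟨i, hi, hn⟩ | ⟨i, hi, hn⟩)
    · exact ⟨i, hi, by rw [hR i hi]; exact Or.inl hn⟩
    · exact ⟨i, hi, by rw [hR i hi]; exact Or.inr hn⟩

theorem ep_shift {P : Set ℕ} (hP : EP P) (r : ℕ) : EP {n | ∃ a ∈ P, n = a + r} := by
  obtain ⟨n₁, M, hM, h⟩ := hP
  refine ⟨n₁ + r, M, hM, fun n hn => ⟨?_, ?_⟩⟩
  · rintro ⟨a, ha, rfl⟩
    exact ⟨a + M, (h a (by omega)).1 ha, by ring⟩
  · rintro ⟨a, ha, hna⟩
    refine ⟨n - r, (h (n - r) (by omega)).2 ?_, by omega⟩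
    have h1 : n - r + M = a := by omega
    rw [h1]
    exact ha

theorem ep_class (a M : ℕ) : EP {n | ∃ s, n = a + M * s} := by
  have h := Pool.Agent.Helper38.PC.ep_single M a
  refine (Eq.mp (congrArg EP ?_) h)
  ext n
  constructor
  · rintro ⟨s, hs⟩
    exact ⟨s, by rw [hs]; ring⟩
  · rintro ⟨s, hs⟩
    exact ⟨s, by rw [hs]; ring⟩

theorem ep_finite {P : Set ℕ} (hP : P.Finite) : EP P := by
  obtain ⟨B, hB⟩ := hP.bddAbove
  refine ⟨B + 1, 1, one_pos, fun n hn => ⟨fun h => ?_, fun h => ?_⟩⟩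
  · have := hB h
    omega
  · have := hB h
    omega

section

variable {N : ℕ} {K : Type} [Field K] {F : Fin (N + 1) → MvPolynomial (Fin (N + 1)) K}
  {y : ℕ → Fin (N + 1) → K}

/-- The prime case. -/
theorem prime_case2 {Sm : Set ℕ → Prop} (hSm : SmallClass Sm) {d : ℕ}
    (hF : ∀ i, (F i).IsHomogeneous d)
    (hy : ∀ n, y (n + 1) = fun i => eval (y n) (F i)) {m : ℕ}
    (hdml : ∀ S : Set (MvPolynomial (Fin (N + 1)) K), Forms S →
      ringKrullDim (MvPolynomial (Fin (N + 1)) K ⧸ Ideal.span S) ≤ m → QP Sm (ret y S))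
    {P : Ideal (MvPolynomial (Fin (N + 1)) K)} (hPp : P.IsPrime)
    (hP : ∀ g ∈ P, ∀ m, homogeneousComponent m g ∈ P)
    (hdim : ringKrullDim (MvPolynomial (Fin (N + 1)) K ⧸ P) ≤ (m + 1 : ℕ)) :
    QP Sm (ret y (P : Set _)) ∨ Diff Sm (ret y (P : Set _)) := by
  classical
  by_cases h1 : ∃ l, 0 < l ∧ ∀ g ∈ P, cmpN F l g ∈ P
  · obtain ⟨l, hl, h⟩ := h1
    left
    have h0 : ∀ n ∈ ret y (P : Set (MvPolynomial (Fin (N + 1)) K)),
        n + l ∈ ret y (P : Set (MvPolynomial (Fin (N + 1)) K)) := by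
      intro n hn g hg
      rw [← eval_cmpN hy]
      exact hn _ (h g hg)
    exact ⟨_, ∅, ep_of_add hl h0, hSm.fin Set.finite_empty, (Set.union_empty _).symm⟩
  push Not at h1
  by_cases h2 : Diff Sm (ret y (P : Set _))
  · exact Or.inr h2
  left
  unfold Diff at h2
  push Not at h2
  obtain ⟨l, hl, hinf⟩ := h2
  -- the forms in `P`
  set PF : Set (MvPolynomial (Fin (N + 1)) K) := {g | g ∈ P ∧ ∃ e, g.IsHomogeneous e} with hPF
  set S₀ : Set (MvPolynomial (Fin (N + 1)) K) := PF ∪ cmpN F l '' PF with hS₀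
  have hPFforms : Forms PF := fun g hg => hg.2
  have himg : ∀ l, Forms (cmpN F l '' PF) := by
    rintro l _ ⟨g, hg, rfl⟩
    obtain ⟨e, he⟩ := hg.2
    exact ⟨_, cmpN_hom hF l he⟩
  have hS₀forms : Forms S₀ := by
    rintro g (hg | hg)
    · exact hPFforms g hg
    · exact himg l g hg
  have hretc : ∀ l n, n ∈ ret y (cmpN F l '' PF) ↔ n + l ∈ ret y (P : Set _) := by
    intro l n
    rw [← ret_forms hP]
    constructor
    · intro h g hg
      rw [← eval_cmpN hy]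
      exact h _ ⟨g, hg, rfl⟩
    · rintro h _ ⟨g, hg, rfl⟩
      rw [eval_cmpN hy]
      exact h g hg
  have hret₀ : ∀ n, n ∈ ret y S₀ ↔ n ∈ ret y (P : Set _) ∧ n + l ∈ ret y (P : Set _) := by
    intro n
    rw [← hretc l, ← ret_forms hP]
    constructor
    · exact fun h => ⟨fun g hg => h g (Or.inl hg), fun g hg => h g (Or.inr hg)⟩
    · rintro ⟨h, h'⟩ g (hg | hg)
      · exact h g hg
      · exact h' g hg
  -- the span
  have hPspan : P ≤ Ideal.span PF := by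
    intro g hg
    rw [← sum_homogeneousComponent g]
    exact Ideal.sum_mem _ fun i _ => Ideal.subset_span
      ⟨hP g hg i, i, homogeneousComponent_isHomogeneous i g⟩
  have hPle : P ≤ Ideal.span S₀ := hPspan.trans (Ideal.span_mono Set.subset_union_left)
  have hnle : ¬ Ideal.span S₀ ≤ P := by
    intro hle
    obtain ⟨g, hg, hg'⟩ := h1 l hl
    apply hg'
    rw [← sum_homogeneousComponent g, cmpN_sum]
    exact Ideal.sum_mem _ fun i _ => hle (Ideal.subset_span (Or.inr ⟨_, ⟨hP g hg i, i,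
      homogeneousComponent_isHomogeneous i g⟩, rfl⟩))
  have hdim₀ : ringKrullDim (MvPolynomial (Fin (N + 1)) K ⧸ Ideal.span S₀) ≤ m :=
    krull_quot hPle hnle hdim
  obtain ⟨P₀, G₀, hP₀, hG₀, hPG₀⟩ := hdml S₀ hS₀forms hdim₀
  obtain ⟨n₁, M, hM, h⟩ := hP₀
  have h3 : ret y S₀ = {n | n ∈ ret y (P : Set _) ∧ n + l ∈ ret y (P : Set _)} :=
    Set.ext fun n => hret₀ n
  have hinf₀ : P₀.Infinite := by
    intro hfin
    apply hinf
    rw [← h3, hPG₀]
    exact hSm.union (hSm.fin hfin) hG₀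
  obtain ⟨a, ha, ha'⟩ := hinf₀.exists_gt n₁
  have haM : ∀ s, a + M * s ∈ ret y S₀ := by
    intro s
    rw [hPG₀]
    exact Or.inl ((ep_mul h s a ha'.le).1 ha)
  -- the classes
  have hQPr : ∀ r, QP Sm (ret y (S₀ ∪ cmpN F r '' PF)) := by
    intro r
    refine hdml _ ?_ (le_trans ?_ hdim₀)
    · rintro g (hg | hg)
      · exact hS₀forms g hg
      · exact himg r g hg
    · exact ringKrullDim_le_of_surjective
        (Ideal.Quotient.factor (Ideal.span_mono Set.subset_union_left))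
        (Ideal.Quotient.factor_surjective _)
  have hretr : ∀ r s, a + M * s ∈ ret y (S₀ ∪ cmpN F r '' PF) ↔
      a + M * s + r ∈ ret y (P : Set _) := by
    intro r s
    rw [← hretc r]
    constructor
    · exact fun h g hg => h g (Or.inr hg)
    · rintro h g (hg | hg)
      · exact haM s g hg
      · exact h g hg
  -- the set is a finite union
  have hunion : ret y (P : Set _) = (ret y (P : Set _) ∩ {n | n < a}) ∪
      ⋃ r ∈ Finset.range M, {n | ∃ b ∈ ret y (S₀ ∪ cmpN F r '' PF) ∩ {n | ∃ s, n = a + M * s},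
        n = b + r} := by
    ext n
    simp only [Set.mem_union, Set.mem_iUnion]
    constructor
    · intro hn
      by_cases hna : n < a
      · exact Or.inl ⟨hn, hna⟩
      right
      have h4 := Nat.mod_add_div (n - a) M
      have h5 : n = a + M * ((n - a) / M) + (n - a) % M := by
        have h6 : a ≤ n := by omega
        rw [add_assoc, add_comm (M * _), h4, Nat.add_sub_cancel' h6]
      refine ⟨(n - a) % M, Finset.mem_range.2 (Nat.mod_lt _ hM), a + M * ((n - a) / M),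
        ⟨?_, _, rfl⟩, h5⟩
      rw [hretr, ← h5]
      exact hn
    · rintro (hn | ⟨r, hr, b, ⟨hb, s, rfl⟩, rfl⟩)
      · exact hn.1
      · rw [hretr] at hb
        exact hb
  rw [hunion]
  have hpart : ∀ r ∈ Finset.range M, QP Sm {n | ∃ b ∈ ret y (S₀ ∪ cmpN F r '' PF) ∩
      {n | ∃ s, n = a + M * s}, n = b + r} := by
    intro r _
    obtain ⟨P₁, G₁, hP₁, hG₁, hPG₁⟩ := hQPr r
    refine ⟨{n | ∃ b ∈ P₁ ∩ {n | ∃ s, n = a + M * s}, n = b + r},
      {n | ∃ b ∈ G₁ ∩ {n | ∃ s, n = a + M * s}, n = b + r},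
      ep_shift (hP₁.inter (ep_class a M)) r,
      hSm.shift r (hSm.mono Set.inter_subset_left hG₁), ?_⟩
    rw [hPG₁]
    ext n
    constructor
    · rintro ⟨b, ⟨hb | hb, hb'⟩, hn⟩
      · exact Or.inl ⟨b, ⟨hb, hb'⟩, hn⟩
      · exact Or.inr ⟨b, ⟨hb, hb'⟩, hn⟩
    · rintro (⟨b, ⟨hb, hb'⟩, hn⟩ | ⟨b, ⟨hb, hb'⟩, hn⟩)
      · exact ⟨b, ⟨Or.inl hb, hb'⟩, hn⟩
      · exact ⟨b, ⟨Or.inr hb, hb'⟩, hn⟩
  obtain ⟨P₂, G₂, hP₂, hG₂, hPG₂⟩ := qp_biUnion hSm _ hpart
  refine ⟨P₂, (ret y (P : Set _) ∩ {n | n < a}) ∪ G₂, hP₂, hSm.union (hSm.fin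
    ((Set.finite_lt_nat a).subset Set.inter_subset_right)) hG₂, ?_⟩
  rw [hPG₂]
  ext n
  simp only [Set.mem_union]
  tauto

/-- Return sets for closed sets of dimension one more, up to small sets. -/
theorem gaps2 {Sm : Set ℕ → Prop} (hSm : SmallClass Sm) {d : ℕ}
    (hF : ∀ i, (F i).IsHomogeneous d)
    (hy : ∀ n, y (n + 1) = fun i => eval (y n) (F i)) {m : ℕ}
    (hdml : ∀ S : Set (MvPolynomial (Fin (N + 1)) K), Forms S →
      ringKrullDim (MvPolynomial (Fin (N + 1)) K ⧸ Ideal.span S) ≤ m →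
        ∃ P G : Set ℕ, FU P ∧ Sm G ∧ ret y S = P ∪ G)
    {S : Set (MvPolynomial (Fin (N + 1)) K)} (hS : Forms S)
    (hdim : ringKrullDim (MvPolynomial (Fin (N + 1)) K ⧸ Ideal.span S) ≤ (m + 1 : ℕ)) :
    ∃ (P G : Set ℕ) (t : ℕ) (E : Fin t → Set ℕ), FU P ∧ Sm G ∧ (∀ i, Diff Sm (E i)) ∧
      ret y S = P ∪ G ∪ ⋃ i, E i := by
  classical
  set I := Ideal.span S with hI
  have hfin : I.minimalPrimes.Finite := Ideal.finite_minimalPrimes_of_isNoetherianRing _ I
  have hcase : ∀ P ∈ I.minimalPrimes, QP Sm (ret y (P : Set _)) ∨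
      Diff Sm (ret y (P : Set _)) := by
    intro P hP
    refine prime_case2 hSm hF hy (m := m) (fun S' hS' hd => ?_) hP.1.1
      (minimal_hom ⟨S, hS, hI⟩ hP) (le_trans ?_ hdim)
    · obtain ⟨P', G', h1, h2, h3⟩ := hdml S' hS' hd
      exact ⟨P', G', h1.ep, h2, h3⟩
    · exact ringKrullDim_le_of_surjective (Ideal.Quotient.factor hP.1.2)
        (Ideal.Quotient.factor_surjective _)
  have hret : ∀ n, n ∈ ret y S ↔ ∃ P ∈ I.minimalPrimes, n ∈ ret y (P : Set _) := by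
    intro n
    constructor
    · intro h
      have h1 : I ≤ RingHom.ker (eval (y n)) := by
        rw [hI, Ideal.span_le]
        exact fun g hg => h g hg
      have h2 : (RingHom.ker (eval (y n))).IsPrime := RingHom.ker_isPrime _
      obtain ⟨P, hP, hle⟩ := Ideal.exists_minimalPrimes_le h1
      exact ⟨P, hP, fun g hg => hle hg⟩
    · rintro ⟨P, hP, h⟩ g hg
      exact h g (hP.1.2 (Ideal.subset_span hg))
  obtain ⟨A, hA⟩ : ∃ A : Finset (Ideal (MvPolynomial (Fin (N + 1)) K)),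
      ∀ P, P ∈ A ↔ P ∈ I.minimalPrimes ∧ QP Sm (ret y (P : Set _)) :=
    ⟨hfin.toFinset.filter (fun P : Ideal (MvPolynomial (Fin (N + 1)) K) =>
      QP Sm (ret y (P : Set _))), fun P => by rw [Finset.mem_filter, Set.Finite.mem_toFinset]⟩
  obtain ⟨B, hB⟩ : ∃ B : Finset (Ideal (MvPolynomial (Fin (N + 1)) K)),
      ∀ P, P ∈ B ↔ P ∈ I.minimalPrimes ∧ ¬ QP Sm (ret y (P : Set _)) :=
    ⟨hfin.toFinset.filter (fun P : Ideal (MvPolynomial (Fin (N + 1)) K) =>
      ¬ QP Sm (ret y (P : Set _))), fun P => by rw [Finset.mem_filter, Set.Finite.mem_toFinset]⟩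
  obtain ⟨P₀, G₀, hP₀, hG₀, hPG₀⟩ := qp_biUnion hSm A
    (R := fun P : Ideal (MvPolynomial (Fin (N + 1)) K) => ret y (P : Set _))
    (fun P hP => ((hA P).1 hP).2)
  refine ⟨P₀, G₀, B.card, fun i => ret y ((B.equivFin.symm i).1 : Set _), hP₀.fu, hG₀,
    fun i => ?_, ?_⟩
  · have h1 := (hB _).1 (B.equivFin.symm i).2
    exact (hcase _ h1.1).resolve_left h1.2
  · rw [← hPG₀]
    ext n
    rw [hret, Set.mem_union, Set.mem_iUnion₂, Set.mem_iUnion]
    constructor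
    · rintro ⟨P, hP, hn⟩
      by_cases h1 : QP Sm (ret y (P : Set _))
      · exact Or.inl ⟨P, (hA P).2 ⟨hP, h1⟩, hn⟩
      · have h2 : P ∈ B := (hB P).2 ⟨hP, h1⟩
        refine Or.inr ⟨B.equivFin ⟨P, h2⟩, ?_⟩
        rw [Equiv.symm_apply_apply]
        exact hn
    · rintro (⟨P, hP, hn⟩ | ⟨i, hn⟩)
      · exact ⟨P, ((hA P).1 hP).1, hn⟩
      · exact ⟨_, ((hB _).1 (B.equivFin.symm i).2).1, hn⟩

end

end Pool.Agent.Helper89.TNG
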